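import Pool.Agent.Helper61.QE.St4

/-!
# Project QD, PART E: module AB1 (holomorphic families in `L²`, part 1)
-/

set_option autoImplicit false

open MeasureTheory Set Filter Topology Complex
open scoped ContDiff ComplexConjugate ENNReal

namespace Pool.Agent.Helper6.QE

open Pool.Agent.Helper61.QE

section

variable {X : Type} [MeasurableSpace X] {m : Measure X}

theorem AB1_sq {f : X → ℂ} {A : ℝ} (hA : 0 ≤ A) (hf : Measurable f)
    (h : ∫⁻ x, ENNReal.ofReal (‖f x‖ ^ 2) ∂m ≤ ENNReal.ofReal A) :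
    Integrable (fun x => ‖f x‖ ^ 2) m ∧ ∫ x, ‖f x‖ ^ 2 ∂m ≤ A := by
  have hm : Measurable (fun x => ‖f x‖ ^ 2) := hf.norm.pow_const 2
  have hnn : ∀ x, 0 ≤ ‖f x‖ ^ 2 := fun x => by positivity
  constructor
  · refine ⟨hm.aestronglyMeasurable, ?_⟩
    rw [hasFiniteIntegral_iff_ofReal (Eventually.of_forall hnn)]
    exact h.trans_lt ENNReal.ofReal_lt_top
  · rw [integral_eq_lintegral_of_nonneg_ae (Eventually.of_forall hnn) hm.aestronglyMeasurable]
    exact ENNReal.toReal_le_of_le_ofReal hA h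

theorem AB1_norm (f g : X → ℂ) (x : X) : ‖conj (f x) * g x‖ ≤ ‖f x‖ ^ 2 + ‖g x‖ ^ 2 := by
  rw [norm_mul, RCLike.norm_conj]
  nlinarith [sq_nonneg (‖f x‖ - ‖g x‖), sq_nonneg (‖f x‖), sq_nonneg (‖g x‖)]

theorem AB1_mul {f g : X → ℂ} (hf : Measurable f) (hg : Measurable g)
    (h1 : Integrable (fun x => ‖f x‖ ^ 2) m) (h2 : Integrable (fun x => ‖g x‖ ^ 2) m) :
    Integrable (fun x => conj (f x) * g x) m := by
  have hm : Measurable (fun x => conj (f x) * g x) :=
    (Complex.continuous_conj.measurable.comp hf).mul hg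
  exact (h1.add h2).mono' hm.aestronglyMeasurable (Eventually.of_forall fun x => AB1_norm f g x)

theorem AB1_bd {f g : X → ℂ} (h1 : Integrable (fun x => ‖f x‖ ^ 2) m)
    (h2 : Integrable (fun x => ‖g x‖ ^ 2) m) :
    ∫ x, ‖conj (f x) * g x‖ ∂m ≤ ∫ x, ‖f x‖ ^ 2 ∂m + ∫ x, ‖g x‖ ^ 2 ∂m := by
  rw [← integral_add h1 h2]
  exact integral_mono_of_nonneg (Eventually.of_forall fun x => norm_nonneg _) (h1.add h2)
    (Eventually.of_forall fun x => AB1_norm f g x)

variable [SigmaFinite m] {U : ℂ → X → ℂ} {A : ℝ}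

theorem AB1_hol (hA : 0 ≤ A) (hUm : ∀ t ∈ D, Measurable (U t))
    (hUd : ∀ x, DifferentiableOn ℂ (fun t => U t x) D)
    (hUb : ∀ t ∈ D, ∫⁻ x, ENNReal.ofReal (‖U t x‖ ^ 2) ∂m ≤ ENNReal.ofReal A)
    {f : X → ℂ} (hf : Measurable f) (hf2 : Integrable (fun x => ‖f x‖ ^ 2) m) :
    DifferentiableOn ℂ (fun t => ∫ x, conj (f x) * U t x ∂m) D := by
  intro t0 ht0
  obtain ⟨r, hr, hrD⟩ : ∃ r > 0, Metric.closedBall t0 r ⊆ D :=
    Metric.nhds_basis_closedBall.mem_iff.1 (Metric.isOpen_ball.mem_nhds ht0)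
  set G : ℂ → ℂ := fun t => ∫ x, conj (f x) * U t x ∂m with hG
  have hcirc : ∀ θ : ℝ, circleMap t0 r θ ∈ D := fun θ =>
    hrD (circleMap_mem_closedBall t0 hr.le θ)
  have hcont : ∀ x, Continuous fun θ : ℝ => U (circleMap t0 r θ) x := fun x =>
    (hUd x).continuousOn.comp_continuous (continuous_circleMap t0 r) hcirc
  have hmeas : Measurable (Function.uncurry fun (θ : ℝ) (x : X) => U (circleMap t0 r θ) x) :=
    measurable_uncurry_of_continuous_of_measurable hcont (fun θ => hUm _ (hcirc θ))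
  have hmf : Measurable (fun p : ℝ × X => conj (f p.2) * U (circleMap t0 r p.1) p.2) :=
    (Complex.continuous_conj.measurable.comp (hf.comp measurable_snd)).mul hmeas
  have hsq : ∀ t ∈ D, Integrable (fun x => ‖U t x‖ ^ 2) m ∧ ∫ x, ‖U t x‖ ^ 2 ∂m ≤ A :=
    fun t ht => AB1_sq hA (hUm t ht) (hUb t ht)
  set B : ℝ := ∫ x, ‖f x‖ ^ 2 ∂m + A with hB
  have hGb : ∀ t ∈ D, ∫ x, ‖conj (f x) * U t x‖ ∂m ≤ B := fun t ht =>
    (AB1_bd hf2 (hsq t ht).1).trans (by rw [hB]; linarith [(hsq t ht).2])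
  -- the function `G` on the circle
  have hGm : StronglyMeasurable fun θ : ℝ => G (circleMap t0 r θ) :=
    hmf.stronglyMeasurable.integral_prod_right'
  have hGint : CircleIntegrable G t0 r := by
    unfold CircleIntegrable
    refine (intervalIntegrable_const (c := B)).mono_fun hGm.aestronglyMeasurable
      (Eventually.of_forall fun θ => ?_)
    refine (norm_integral_le_integral_norm _).trans ((hGb _ (hcirc θ)).trans ?_)
    exact le_abs_self B
  -- Cauchy's formula
  have key : ∀ t ∈ Metric.ball t0 r,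
      (∮ s in C(t0, r), (s - t)⁻¹ • G s) = (2 * Real.pi * I : ℂ) • G t := by
    intro t ht
    have hne : ∀ θ : ℝ, circleMap t0 r θ - t ≠ 0 := by
      intro θ h0
      have h1 : circleMap t0 r θ = t := sub_eq_zero.1 h0
      have h2 := circleMap_mem_sphere t0 hr.le θ
      rw [h1, Metric.mem_sphere] at h2
      rw [Metric.mem_ball, h2] at ht
      exact lt_irrefl _ ht
    have hKc : Continuous fun θ : ℝ => deriv (circleMap t0 r) θ * (circleMap t0 r θ - t)⁻¹ := by
      refine Continuous.mul ?_ ?_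
      · have h1 : deriv (circleMap t0 r) = fun θ => circleMap 0 r θ * I := by
          funext θ
          exact deriv_circleMap t0 r θ
        rw [h1]
        exact (continuous_circleMap 0 r).mul continuous_const
      · exact ((continuous_circleMap t0 r).sub continuous_const).inv₀ hne
    obtain ⟨K, hK⟩ := (isCompact_Icc (a := (0 : ℝ)) (b := 2 * Real.pi)).exists_bound_of_continuousOn
      hKc.continuousOn
    have hK0 : 0 ≤ K := (norm_nonneg _).trans (hK 0 ⟨le_rfl, by positivity⟩)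
    -- joint integrability
    have hint : Integrable (Function.uncurry fun (θ : ℝ) (x : X) =>
        (deriv (circleMap t0 r) θ * (circleMap t0 r θ - t)⁻¹) *
          (conj (f x) * U (circleMap t0 r θ) x))
        ((volume.restrict (Set.uIoc 0 (2 * Real.pi))).prod m) := by
      have hm : Measurable (Function.uncurry fun (θ : ℝ) (x : X) =>
          (deriv (circleMap t0 r) θ * (circleMap t0 r θ - t)⁻¹) *
          (conj (f x) * U (circleMap t0 r θ) x)) :=
        (hKc.measurable.comp measurable_fst).mul hmf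
      have hfin : IsFiniteMeasure (volume.restrict (Set.uIoc 0 (2 * Real.pi))) := by
        refine ⟨?_⟩
        rw [Measure.restrict_apply_univ, Set.uIoc_of_le (by positivity), Real.volume_Ioc]
        exact ENNReal.ofReal_lt_top
      rw [integrable_prod_iff hm.aestronglyMeasurable]
      constructor
      · refine Eventually.of_forall fun θ => ?_
        change Integrable (fun x => (deriv (circleMap t0 r) θ * (circleMap t0 r θ - t)⁻¹) *
          (conj (f x) * U (circleMap t0 r θ) x)) m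
        exact (AB1_mul hf (hUm _ (hcirc θ)) hf2 (hsq _ (hcirc θ)).1).const_mul _
      · refine (integrable_const (K * B)).mono'
          hm.norm.stronglyMeasurable.integral_prod_right'.aestronglyMeasurable ?_
        refine (ae_restrict_iff' measurableSet_uIoc).2 (Eventually.of_forall fun θ hθ => ?_)
        rw [Set.uIoc_of_le (by positivity)] at hθ
        have hθ' : θ ∈ Icc 0 (2 * Real.pi) := ⟨hθ.1.le, hθ.2⟩
        rw [Real.norm_eq_abs, abs_of_nonneg (integral_nonneg fun x => norm_nonneg _)]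
        simp only [Function.uncurry_apply_pair]
        have h1 : ∀ x, ‖(deriv (circleMap t0 r) θ * (circleMap t0 r θ - t)⁻¹) *
          (conj (f x) * U (circleMap t0 r θ) x)‖ =
          ‖deriv (circleMap t0 r) θ * (circleMap t0 r θ - t)⁻¹‖ *
            ‖conj (f x) * U (circleMap t0 r θ) x‖ := fun x => norm_mul _ _
        simp_rw [h1]
        rw [integral_const_mul]
        exact mul_le_mul (hK θ hθ') (hGb _ (hcirc θ)) (integral_nonneg fun x => norm_nonneg _) hK0
    have hsw := intervalIntegral_integral_swap hint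
    have hL : (∮ s in C(t0, r), (s - t)⁻¹ • G s) =
        ∫ θ in (0 : ℝ)..(2 * Real.pi), ∫ x,
          (deriv (circleMap t0 r) θ * (circleMap t0 r θ - t)⁻¹) *
            (conj (f x) * U (circleMap t0 r θ) x) ∂m := by
      unfold circleIntegral
      refine intervalIntegral.integral_congr fun θ _ => ?_
      change deriv (circleMap t0 r) θ • ((circleMap t0 r θ - t)⁻¹ • G (circleMap t0 r θ)) = _
      rw [integral_const_mul, smul_eq_mul, smul_eq_mul, mul_assoc]
    have hR : ∀ x, (∫ θ in (0 : ℝ)..(2 * Real.pi),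
          (deriv (circleMap t0 r) θ * (circleMap t0 r θ - t)⁻¹) *
            (conj (f x) * U (circleMap t0 r θ) x)) =
          (2 * Real.pi * I : ℂ) * (conj (f x) * U t x) := by
      intro x
      have hd : DifferentiableOn ℂ (fun s => conj (f x) * U s x) (Metric.closedBall t0 r) :=
        ((hUd x).mono hrD).const_mul _
      have h1 := hd.circleIntegral_sub_inv_smul ht
      rw [smul_eq_mul] at h1
      rw [← h1]
      unfold circleIntegral
      refine intervalIntegral.integral_congr fun θ _ => ?_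
      change (deriv (circleMap t0 r) θ * (circleMap t0 r θ - t)⁻¹) *
            (conj (f x) * U (circleMap t0 r θ) x) = deriv (circleMap t0 r) θ •
            ((circleMap t0 r θ - t)⁻¹ • (conj (f x) * U (circleMap t0 r θ) x))
      rw [smul_eq_mul, smul_eq_mul, mul_assoc]
    rw [hL, hsw]
    simp_rw [hR]
    rw [integral_const_mul, smul_eq_mul]
  have hpi : (2 * Real.pi * I : ℂ) ≠ 0 := Complex.two_pi_I_ne_zero
  have hps := hasFPowerSeriesOn_cauchy_integral (f := G) (c := t0) (R := ⟨r, hr.le⟩) hGint hr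
  have hd : DifferentiableAt ℂ
      (fun w => (2 * Real.pi * I : ℂ)⁻¹ • ∮ z in C(t0, r), (z - w)⁻¹ • G z) t0 :=
    hps.hasFPowerSeriesAt.differentiableAt
  refine (hd.congr_of_eventuallyEq ?_).differentiableWithinAt
  filter_upwards [Metric.ball_mem_nhds t0 hr] with t ht
  rw [key t ht, smul_smul, inv_mul_cancel₀ hpi, one_smul]

end

theorem pAB1 : Pool.Agent.Helper61.QE.StAB1 := by
  intro X _ m _ U A hA hUm hUd hUb
  have hsq : ∀ t ∈ D, Integrable (fun x => ‖U t x‖ ^ 2) m ∧ ∫ x, ‖U t x‖ ^ 2 ∂m ≤ A :=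
    fun t ht => AB1_sq hA (hUm t ht) (hUb t ht)
  have hhol : ∀ p ∈ D, DifferentiableOn ℂ (fun t => ∫ x, conj (U p x) * U t x ∂m) D :=
    fun p hp => AB1_hol hA hUm hUd hUb (hUm p hp) (hsq p hp).1
  refine ⟨⟨fun z hz => ?_, fun p hp => ?_⟩, hhol⟩
  · have := (hsq z hz).2
    change 0 ≤ A - ∫ x, ‖U z x‖ ^ 2 ∂m
    linarith
  · refine ⟨fun t => ((A + ∫ x, ‖U p x‖ ^ 2 ∂m : ℝ) : ℂ) - 2 * ∫ x, conj (U p x) * U t x ∂m,
      (differentiableOn_const _).sub ((hhol p hp).const_mul 2), fun t ht => ?_, ?_⟩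
    · have hint := AB1_mul (hUm p hp) (hUm t ht) (hsq p hp).1 (hsq t ht).1
      have h1 : (∫ x, conj (U p x) * U t x ∂m).re = ∫ x, (conj (U p x) * U t x).re ∂m := by
        have := (Complex.reCLM.integral_comp_comm hint)
        exact this.symm
      have h2 : 2 * ∫ x, (conj (U p x) * U t x).re ∂m ≤
          ∫ x, ‖U p x‖ ^ 2 ∂m + ∫ x, ‖U t x‖ ^ 2 ∂m := by
        rw [← integral_const_mul, ← integral_add (hsq p hp).1 (hsq t ht).1]
        refine integral_mono (hint.re.const_mul 2) ((hsq p hp).1.add (hsq t ht).1) fun x => ?_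
        change 2 * (conj (U p x) * U t x).re ≤ ‖U p x‖ ^ 2 + ‖U t x‖ ^ 2
        have h3 : (conj (U p x) * U t x).re ≤ ‖U p x‖ * ‖U t x‖ := by
          refine (Complex.re_le_norm _).trans ?_
          rw [norm_mul, RCLike.norm_conj]
        nlinarith [sq_nonneg (‖U p x‖ - ‖U t x‖)]
      change A - ∫ x, ‖U t x‖ ^ 2 ∂m ≤ (((A + ∫ x, ‖U p x‖ ^ 2 ∂m : ℝ) : ℂ)
        - 2 * ∫ x, conj (U p x) * U t x ∂m).re
      have h4 : (((A + ∫ x, ‖U p x‖ ^ 2 ∂m : ℝ) : ℂ) - 2 * ∫ x, conj (U p x) * U t x ∂m).re =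
          (A + ∫ x, ‖U p x‖ ^ 2 ∂m) - 2 * (∫ x, conj (U p x) * U t x ∂m).re := by
        rw [Complex.sub_re, Complex.ofReal_re, Complex.mul_re]
        simp
      rw [h4, h1]
      linarith
    · have h5 : ∫ x, conj (U p x) * U p x ∂m = ((∫ x, ‖U p x‖ ^ 2 ∂m : ℝ) : ℂ) := by
        have h7 : ∫ x, ((‖U p x‖ ^ 2 : ℝ) : ℂ) ∂m = ((∫ x, ‖U p x‖ ^ 2 ∂m : ℝ) : ℂ) :=
          integral_ofReal
        rw [← h7]
        refine integral_congr_ae (Eventually.of_forall fun x => ?_)
        change conj (U p x) * U p x = ((‖U p x‖ ^ 2 : ℝ) : ℂ)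
        rw [Complex.conj_mul', Complex.ofReal_pow]
      change (((A + ∫ x, ‖U p x‖ ^ 2 ∂m : ℝ) : ℂ) - 2 * ∫ x, conj (U p x) * U p x ∂m).re = _
      rw [h5]
      have h6 : (((A + ∫ x, ‖U p x‖ ^ 2 ∂m : ℝ) : ℂ) - 2 * ((∫ x, ‖U p x‖ ^ 2 ∂m : ℝ) : ℂ)) =
          ((A - ∫ x, ‖U p x‖ ^ 2 ∂m : ℝ) : ℂ) := by
        push_cast
        ring
      rw [h6, Complex.ofReal_re]

end Pool.Agent.Helper6.QE
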